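import Pool.Agent.H33.NF.K

/-!
# NF: RTB
-/

set_option autoImplicit false

namespace Pool.NF

/-- Row RTB. -/
theorem rtb : RTBStmt := by
  intro a₁ a₂ a₃ θ Y hY h1 h2 h3 h
  by_contra hcon
  push Not at hcon
  have hY0 : 0 < Y := by linarith
  set r := ‖θ‖ with hr
  have hr0 : 0 < r := by linarith
  have e : θ ^ 3 = -(a₁ * θ ^ 2) + -(a₂ * θ) + (-(a₃ + (Y : ℂ) ^ 3) + (Y : ℂ) ^ 3) := by
    linear_combination h
  have e2 : r ^ 3 ≤ Y / 100 * r ^ 2 + Y ^ 2 / 100 * r + (Y ^ 3 / 100 + Y ^ 3) := by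
    have e3 : r ^ 3 = ‖θ ^ 3‖ := by rw [norm_pow]
    rw [e3, e]
    refine (norm_add_le _ _).trans (add_le_add ((norm_add_le _ _).trans (add_le_add ?_ ?_))
      ((norm_add_le _ _).trans (add_le_add ?_ ?_)))
    · rw [norm_neg, norm_mul, norm_pow]
      exact mul_le_mul_of_nonneg_right h1 (by positivity)
    · rw [norm_neg, norm_mul]
      exact mul_le_mul_of_nonneg_right h2 (by positivity)
    · rw [norm_neg]
      exact h3
    · rw [norm_pow, Complex.norm_real, Real.norm_eq_abs, abs_of_pos hY0]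
  have h4 : Y ≤ r / 2 := by linarith
  have h5 : Y * r ^ 2 ≤ r / 2 * r ^ 2 := mul_le_mul_of_nonneg_right h4 (by positivity)
  have h6 : Y ^ 2 ≤ (r / 2) ^ 2 := pow_le_pow_left₀ hY0.le h4 2
  have h7 : Y ^ 2 * r ≤ (r / 2) ^ 2 * r := mul_le_mul_of_nonneg_right h6 hr0.le
  have h8 : Y ^ 3 ≤ (r / 2) ^ 3 := pow_le_pow_left₀ hY0.le h4 3
  have h9 : 0 < r ^ 3 := by positivity
  nlinarith

end Pool.NF
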