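import Pool.Agent.H33.NF.K

/-!
# NF: EBN
-/

set_option autoImplicit false

namespace Pool.NF

open Polynomial Matrix NumberField IsDedekindDomain Pool.HYP Pool.TOW Pool.AVS Pool.T1

/-- The bound for the entries of a congruent matrix. -/
theorem EBN.bound (Q P : Matrix (Fin 3) (Fin 3) ℂ) (d : Fin 3 → ℝ) (M : ℝ) (hM : 0 ≤ M)
    (hQ : ∀ i j, ‖Q i j‖ ≤ M) (hP : ∀ i j, ‖P i j‖ ≤ Real.exp (d j)) (i j : Fin 3) :
    ‖(Pᵀ * Q * P) i j‖ ≤ 9 * M * Real.exp (d i + d j) := by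
  rw [Matrix.mul_apply]
  have h1 : ∀ k : Fin 3, ‖(Pᵀ * Q) i k * P k j‖ ≤ 3 * M * Real.exp (d i + d j) := by
    intro k
    rw [norm_mul, Matrix.mul_apply]
    have h2 : ‖∑ l, Pᵀ i l * Q l k‖ ≤ 3 * (Real.exp (d i) * M) := by
      refine (norm_sum_le _ _).trans ?_
      refine (Finset.sum_le_card_nsmul _ _ (Real.exp (d i) * M) fun l _ => ?_).trans ?_
      · rw [norm_mul, Matrix.transpose_apply]
        exact mul_le_mul (hP l i) (hQ l k) (norm_nonneg _) (Real.exp_pos _).le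
      · simp
    calc _ ≤ 3 * (Real.exp (d i) * M) * Real.exp (d j) :=
          mul_le_mul h2 (hP k j) (norm_nonneg _) (by positivity)
      _ = 3 * M * Real.exp (d i + d j) := by rw [Real.exp_add]; ring
  refine (norm_sum_le _ _).trans ?_
  refine (Finset.sum_le_card_nsmul _ _ _ fun k _ => h1 k).trans ?_
  simp only [Finset.card_univ, Fintype.card_fin, nsmul_eq_mul]
  apply le_of_eq
  push_cast
  ring

/-- Row EBN. -/
theorem ebn : EBNStmt := by
  intro K _ _ A E G g d e M hM hde hG hg h1 h2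
  have key : ∀ (σ : K →+* ℂ) (i j : Fin 3),
      ‖σ ((G i j : 𝓞 K) : K)‖ ≤ 9 * M * Real.exp ((e i + e j : ℤ) : ℝ) := by
    intro σ i j
    have e1 : (((g σ)⁻¹ * E.map σ)ᵀ * ((g σ)ᵀ * A.map σ * g σ) * ((g σ)⁻¹ * E.map σ)) =
        (E.map σ)ᵀ * A.map σ * E.map σ := by
      have hu : IsUnit (g σ).det := isUnit_iff_ne_zero.2 (hg σ)
      have h3 : (g σ) * ((g σ)⁻¹ * E.map σ) = E.map σ := by
        rw [← Matrix.mul_assoc, Matrix.mul_nonsing_inv _ hu, Matrix.one_mul]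
      have h4 : ((g σ)⁻¹ * E.map σ)ᵀ * (g σ)ᵀ = (E.map σ)ᵀ := by
        rw [← Matrix.transpose_mul, h3]
      calc _ = (((g σ)⁻¹ * E.map σ)ᵀ * (g σ)ᵀ) * A.map σ * ((g σ) * ((g σ)⁻¹ * E.map σ)) := by
            simp only [Matrix.mul_assoc]
        _ = _ := by rw [h3, h4]
    have e2 : (E.map σ)ᵀ * A.map σ * E.map σ = (G.map (algebraMap (𝓞 K) K)).map σ := by
      rw [← hG, Matrix.map_mul, Matrix.map_mul, Matrix.transpose_map]
    have e3 : σ ((G i j : 𝓞 K) : K) =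
        (((g σ)⁻¹ * E.map σ)ᵀ * ((g σ)ᵀ * A.map σ * g σ) * ((g σ)⁻¹ * E.map σ)) i j := by
      rw [e1, e2]
      rfl
    rw [e3]
    refine (EBN.bound _ _ d M hM (h1 σ) (h2 σ) i j).trans ?_
    refine mul_le_mul_of_nonneg_left (Real.exp_le_exp.2 ?_) (by positivity)
    push_cast
    exact add_le_add (hde i) (hde j)
  refine ⟨fun i j σ => key σ i j, fun σ => ?_⟩
  have e1 : σ ((G.det : 𝓞 K) : K) = ∑ p : Equiv.Perm (Fin 3),
      (Equiv.Perm.sign p : ℂ) * ∏ i, σ ((G (p i) i : 𝓞 K) : K) := by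
    have h3 : σ ((G.det : 𝓞 K) : K) = (σ.comp (algebraMap (𝓞 K) K)) G.det := rfl
    rw [h3, RingHom.map_det, Matrix.det_apply']
    refine Finset.sum_congr rfl fun p _ => ?_
    rfl
  rw [e1]
  refine (norm_sum_le _ _).trans ?_
  refine (Finset.sum_le_card_nsmul _ _
    ((9 * M) ^ 3 * Real.exp ((2 * ∑ i, e i : ℤ) : ℝ)) fun p _ => ?_).trans ?_
  · rw [norm_mul]
    have h4 : ‖((Equiv.Perm.sign p : ℤ) : ℂ)‖ = 1 := by
      rcases Int.units_eq_one_or (Equiv.Perm.sign p) with h | h <;> rw [h] <;> simp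
    rw [h4, one_mul, norm_prod]
    refine (Finset.prod_le_prod (fun i _ => norm_nonneg _) fun i _ => key σ (p i) i).trans ?_
    apply le_of_eq
    rw [Finset.prod_mul_distrib, Finset.prod_const, Finset.card_univ, Fintype.card_fin,
      ← Real.exp_sum]
    congr 2
    push_cast
    rw [Finset.sum_add_distrib, Equiv.sum_comp p (fun i => (e i : ℝ)), ← two_mul]
  · rw [Finset.card_univ, Fintype.card_perm, Fintype.card_fin, nsmul_eq_mul]
    apply le_of_eq
    norm_num [Nat.factorial]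
    ring

end Pool.NF
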